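import Pool.Agent.W_MP_83aea7_lc.Main
import Pool.Agent.W_MP_83aea7_lc.ExEval

/-!
# MP_83aea7_lc : the consistency of a huge cardinal implies the consistency of exact structural reflection

All definitions used in the statement are in `Pool.Agent.W_MP_83aea7_lc.Defs`.
-/

namespace Pool.Agent.Results.MP_83aea7_lc.HugeGivesESR
open HESR
universe u

/-- (1) every model `(N,E)` of ZFC with a huge cardinal `κ` has an inner (set-sized) transitive model `(P,EP)` of ZFC, with `κ ∈ P`,
in which `ESR_C(κ,lam)` holds, for some cardinal `lam > κ > ω`, for every class `C` of structures of the same type which is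
definable by a first-order formula of any complexity with a parameter from `V_κ`;
(2) if ZFC + `there is a huge cardinal` has a model, then ZFC + `Σ_2-ESR(κ) for some cardinal κ` has a model;
(3) in every model of ZFC every program has an evaluation in every structure (so the definition of an elementary embedding
in the model refers to actual satisfaction). -/
theorem result :
    (∀ (N : Type u) (E : N → N → Prop) (κ : N), IsZFC E → IsHuge E κ →
      ∃ (P : Type u) (EP : P → P → Prop) (i : P → N) (κ' lam : P),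
        TransEmb EP E i ∧ (∃ τ, ∀ x, E x τ ↔ ∃ z, i z = x) ∧ i κ' = κ ∧ IsZFC EP ∧ (∃ w, IsOmega EP w ∧ EP w κ') ∧
        IsCard EP κ' ∧ IsCard EP lam ∧ EP κ' lam ∧ FullESR EP κ' lam) ∧
    ((∃ (N : Type u) (E : N → N → Prop) (κ : N), IsZFC E ∧ IsHuge E κ) →
      ∃ (N : Type u) (E : N → N → Prop) (κ : N), IsZFC E ∧ IsCard E κ ∧ Sigma2ESR E κ) ∧
    (∀ (N : Type u) (E : N → N → Prop), IsZFC E → ∀ t D I n c : N, IsProg E t n c → ∃ S, IsEval E D I n c S) := by
  refine ⟨fun N E κ hZ h => main hZ h, ?_, fun N E hZ t D I n c hc => hZ.exEval hc⟩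
  rintro ⟨N, E, κ, hZ, h⟩
  obtain ⟨P, EP, i, κ', lam, _, _, _, h4, ⟨w, _, h5⟩, h6, h7, h8, h9⟩ := main hZ h
  exact ⟨P, EP, κ', h4, h6, h9.sigma2 h4 h6.1 h5 h7 h8⟩

end Pool.Agent.Results.MP_83aea7_lc.HugeGivesESR
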